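import Pool.Agent.X234.PK.Tree

/-!
MP_dc922b_co, Q1: for every `n ≥ 1` and every `k ≥ 0` the number of spherical parking functions of
length `n` of degree `C(n,2) - k + 1` equals the number of uprooted trees on `n` labelled vertices
with exactly `k` surface inversions.
-/

namespace Pool.Agent.Results.MP_dc922b_co.SurfaceInversions

open Finset

/-- `a` is a spherical parking function of length `n`: its nondecreasing rearrangement
`c = a ∘ Tuple.sort a` (0-indexed, so that `c i` here is `c_{i+1}` of the problem) satisfies
`c_1 = 1` and `c_i < i` for `2 ≤ i ≤ n`. -/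
def IsSpherical {n : ℕ} (a : Fin n → ℕ) : Prop :=
  (∀ i : Fin n, (i : ℕ) = 0 → (a ∘ Tuple.sort a) i = 1) ∧
    ∀ i : Fin n, 1 ≤ (i : ℕ) → (a ∘ Tuple.sort a) i < (i : ℕ) + 1

/-- For a parent function `p` (`p x = some y`: the parent of `x` is `y`; `p x = none`: `x` is a
root), `β` is a descendant of `α`: going up from `β` one reaches `α` after at least one step. -/
def IsDescendant {n : ℕ} (p : Fin n → Option (Fin n)) (β α : Fin n) : Prop :=
  Relation.TransGen (fun x y => p x = some y) β α

/-- `p` is the parent function of a rooted tree on the vertex set `Fin n` with root `r`: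
`r` has no parent and every other vertex is a descendant of `r`. -/
def IsRootedTree {n : ℕ} (r : Fin n) (p : Fin n → Option (Fin n)) : Prop :=
  p r = none ∧ ∀ v, v ≠ r → IsDescendant p v r

/-- An uprooted tree: a rooted tree in which the root is larger than each of its children. -/
def IsUprooted {n : ℕ} (r : Fin n) (p : Fin n → Option (Fin n)) : Prop :=
  IsRootedTree r p ∧ ∀ v, p v = some r → v < r

/-- The number of surface inversions: ordered pairs `(α, β)` of non-root vertices such that `β` is
a descendant of `α` and `α > β`. -/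
noncomputable def surfaceInversions {n : ℕ} (r : Fin n) (p : Fin n → Option (Fin n)) : ℕ :=
  Set.ncard {x : Fin n × Fin n | x.1 ≠ r ∧ x.2 ≠ r ∧ IsDescendant p x.2 x.1 ∧ x.2 < x.1}

open Pool.Agent.X234.PK in
theorem spherical_iff {n : ℕ} (hn : 1 ≤ n) (a : Fin n → ℕ) :
    IsSpherical a ↔ a ∈ sph (univ : Finset (Fin n)) := by
  classical
  have hmono : Monotone (a ∘ Tuple.sort a) := Tuple.monotone_sort a
  set c := a ∘ Tuple.sort a with hc
  have hcv : ∀ v, a v = c ((Tuple.sort a).symm v) := fun v => by simp [hc]
  have hcard : #(univ : Finset (Fin n)) = n := by simp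
  unfold sph
  rw [mem_filter, mem_box, hcard]
  unfold IsSph
  rw [hcard]
  constructor
  · rintro ⟨h1, h2⟩
    rw [← hc] at h1 h2
    refine ⟨⟨fun v _ => ?_, fun v hv => absurd (mem_univ v) hv⟩, fun j hj hjn => ?_⟩
    · rw [hcv]
      set i := (Tuple.sort a).symm v
      have h3 := hmono (show (⟨0, hn⟩ : Fin n) ≤ i from Fin.mk_le_of_le_val (Nat.zero_le _))
      rw [h1 ⟨0, hn⟩ rfl] at h3
      refine ⟨h3, ?_⟩
      rcases Nat.eq_zero_or_pos (i : ℕ) with h4 | h4
      · rw [h1 i h4]; exact hn
      · have := h2 i h4
        have := i.2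
        omega
    · have h4 := h2 ⟨j, hjn⟩ hj
      have h5 : (Finset.Iic (⟨j, hjn⟩ : Fin n)).map (Tuple.sort a).toEmbedding
          ⊆ univ.filter (fun v => a v ≤ j) := by
        intro v hv
        rw [mem_map] at hv
        obtain ⟨i, hi, rfl⟩ := hv
        rw [mem_Iic] at hi
        rw [mem_filter]
        refine ⟨mem_univ _, ?_⟩
        have := hmono hi
        have h6 : a ((Tuple.sort a).toEmbedding i) = c i := rfl
        rw [h6]
        simp only at h4
        omega
      have h6 := card_le_card h5
      rw [card_map, Fin.card_Iic] at h6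
      convert h6 using 2
  · rintro ⟨⟨h1, _⟩, h2⟩
    have hpos : ∀ i, 0 < c i := fun i => (h1 _ (mem_univ _)).1
    refine ⟨fun i hi => ?_, fun i hi => ?_⟩
    · rw [← hc]
      refine le_antisymm ?_ (hpos i)
      rcases Nat.lt_or_ge 1 n with h3 | h3
      · have h4 := h2 1 le_rfl h3
        have h5 : (univ.filter (fun v => a v ≤ 1)).Nonempty := by
          rw [← card_pos]
          have : 0 < 1 + 1 := by norm_num
          exact lt_of_lt_of_le this (by convert h4 using 2)
        obtain ⟨v, hv⟩ := h5
        have h6 : a v ≤ 1 := (mem_filter.1 hv).2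
        rw [hcv] at h6
        refine (hmono ?_).trans h6
        rw [Fin.le_def, hi]; exact Nat.zero_le _
      · have h4 := (h1 (Tuple.sort a i) (mem_univ _)).2
        exact h4.trans h3
    · rw [← hc]
      by_contra h3
      push Not at h3
      have h4 := h2 i hi i.2
      have h5 : univ.filter (fun v => a v ≤ i) ⊆
          (Finset.Iio i).map (Tuple.sort a).toEmbedding := by
        intro v hv
        have hv' : a v ≤ i := (mem_filter.1 hv).2
        rw [mem_map]
        refine ⟨(Tuple.sort a).symm v, ?_, by simp⟩
        rw [mem_Iio]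
        by_contra h6
        push Not at h6
        have := hmono h6
        rw [← hcv] at this
        omega
      have h6 := card_le_card h5
      rw [card_map, Fin.card_Iio] at h6
      have h7 : (i : ℕ) + 1 ≤ #(univ.filter (fun v => a v ≤ i)) := by convert h4 using 2
      omega

open Pool.Agent.X234.PK in
/-- Q1 of MP_dc922b_co: for all `n ≥ 1` and `k ≥ 0`, the number of spherical parking functions of
length `n` and degree `C(n,2) - k + 1` (degree plus `k` equal to `C(n,2) + 1`) equals the number of
uprooted trees (given by root and parent function) with exactly `k` surface inversions. -/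
theorem result (n : ℕ) (hn : 1 ≤ n) (k : ℕ) :
    Set.ncard {a : Fin n → ℕ | IsSpherical a ∧ (∑ i, a i) + k = n.choose 2 + 1} =
      Set.ncard {T : Fin n × (Fin n → Option (Fin n)) |
        IsUprooted T.1 T.2 ∧ surfaceInversions T.1 T.2 = k} := by
  classical
  have : Nonempty (Fin n) := ⟨⟨0, hn⟩⟩
  have h := main_count (α := Fin n) k
  rw [Fintype.card_fin] at h
  have e1 : {a : Fin n → ℕ | IsSpherical a ∧ (∑ i, a i) + k = n.choose 2 + 1}
      = ↑((sph (univ : Finset (Fin n))).filter
        (fun b => (∑ v, b v) + k = n.choose 2 + 1)) := by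
    ext a
    simp only [Set.mem_ofPred_eq, coe_filter, spherical_iff hn]
  have e2 : {T : Fin n × (Fin n → Option (Fin n)) |
        IsUprooted T.1 T.2 ∧ surfaceInversions T.1 T.2 = k}
      = ↑((univ : Finset (Fin n × (Fin n → Option (Fin n)))).filter
        (fun T => IsUpr T.1 T.2 ∧ sinv T.1 T.2 = k)) := by
    ext T
    simp only [Set.mem_ofPred_eq, coe_filter, mem_univ, true_and]
    have e3 : surfaceInversions T.1 T.2 = sinv T.1 T.2 := by
      unfold surfaceInversions sinv
      rw [← Set.ncard_coe_finset]
      congr 1
      ext x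
      simp only [Set.mem_ofPred_eq, coe_filter, mem_univ, true_and]
      rfl
    rw [e3]
    rfl
  rw [e1, e2, Set.ncard_coe_finset, Set.ncard_coe_finset]
  convert h.symm using 2

end Pool.Agent.Results.MP_dc922b_co.SurfaceInversions
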